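import Pool.Agent.V11121.Grow.Structure

/-!
Global summation.
-/

namespace Pool.Agent.V11121.Grow

open Finset

set_option linter.unusedSectionVars false

variable {V : Type} [Fintype V] [DecidableEq V] {nb : V → Finset V}

/-- Vertices of degree three. -/
def D3 (nb : V → Finset V) : Finset V := univ.filter (fun v => (nb v).card = 3)

/-- Vertices of degree two. -/
def D2 (nb : V → Finset V) : Finset V := univ.filter (fun v => (nb v).card = 2)

theorem mem_D3 {v : V} : v ∈ D3 nb ↔ (nb v).card = 3 := by simp [D3]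

theorem mem_D2 {v : V} : v ∈ D2 nb ↔ (nb v).card = 2 := by simp [D2]

theorem sum_split (hd : Deg23 nb) (f : V → ℝ) :
    ∑ v, f v = ∑ v ∈ D2 nb, f v + ∑ v ∈ D3 nb, f v := by
  rw [← Finset.sum_union]
  · refine Finset.sum_congr ?_ fun _ _ => rfl
    ext v
    simp only [mem_univ, mem_union, mem_D2, mem_D3, true_iff]
    exact hd.deg v
  · rw [Finset.disjoint_left]
    intro v h1 h2
    rw [mem_D2] at h1
    rw [mem_D3] at h2
    omega

theorem swap3 (hd : Deg23 nb) (f : V → ℝ) :
    ∑ v ∈ D3 nb, ∑ y ∈ nb v, f y = ∑ y, (((nb y).filter (· ∈ D3 nb)).card : ℝ) * f y := by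
  have : ∑ v ∈ D3 nb, ∑ y ∈ nb v, f y = ∑ y, ∑ v ∈ (nb y).filter (· ∈ D3 nb), f y := by
    refine Finset.sum_comm' ?_
    intro v y
    simp only [mem_univ, and_true, mem_filter]
    constructor
    · rintro ⟨h1, h2⟩
      exact ⟨(hd.symm v y).mp h2, h1⟩
    · rintro ⟨h1, h2⟩
      exact ⟨h2, (hd.symm v y).mpr h1⟩
  rw [this]
  refine Finset.sum_congr rfl fun y _ => ?_
  rw [Finset.sum_const, nsmul_eq_mul]

theorem ind_one {y : V} : ind 1 (typ nb y) = 1 ∧ short nb y ∨ ind 1 (typ nb y) = 0 ∧ ¬ short nb y := by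
  classical
  unfold typ ind
  by_cases h1 : (nb y).card = 3
  · right
    rw [if_pos h1]
    refine ⟨by simp, ?_⟩
    rintro ⟨h, _⟩
    omega
  · rw [if_neg h1]
    by_cases h2 : short nb y
    · left; rw [if_pos h2]; exact ⟨by simp, h2⟩
    · right; rw [if_neg h2]; exact ⟨by simp, h2⟩

theorem ind_two (hd : Deg23 nb) {y : V} :
    ind 2 (typ nb y) = 1 ∧ (y ∈ D2 nb ∧ ¬ short nb y) ∨
      ind 2 (typ nb y) = 0 ∧ ¬ (y ∈ D2 nb ∧ ¬ short nb y) := by
  classical
  unfold typ ind
  rw [mem_D2]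
  by_cases h1 : (nb y).card = 3
  · right
    rw [if_pos h1]
    refine ⟨by simp, ?_⟩
    rintro ⟨h, _⟩
    omega
  · have h1' : (nb y).card = 2 := (hd.deg y).resolve_right h1
    rw [if_neg h1]
    by_cases h2 : short nb y
    · right; rw [if_pos h2]; exact ⟨by simp, fun h => h.2 h2⟩
    · left; rw [if_neg h2]; exact ⟨by simp, h1', h2⟩

/-- The number of neighbours of degree three. -/
def c3 (nb : V → Finset V) (v : V) : ℕ := ((nb v).filter (· ∈ D3 nb)).card

theorem cnt_zero (v : V) : cnt nb 0 v = c3 nb v := by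
  classical
  unfold cnt c3
  rw [Finset.card_filter]
  push_cast
  refine Finset.sum_congr rfl fun y _ => ?_
  unfold typ ind
  by_cases h1 : (nb y).card = 3
  · rw [if_pos h1, if_pos (mem_D3.mpr h1)]; simp
  · rw [if_neg h1, if_neg (fun h => h1 (mem_D3.mp h))]
    by_cases h2 : short nb y
    · rw [if_pos h2]; simp
    · rw [if_neg h2]; simp

theorem c3_short {y : V} (hy : short nb y) : c3 nb y = 2 := by
  unfold c3
  rw [Finset.filter_true_of_mem (fun v hv => mem_D3.mpr (hy.2 v hv)), hy.1]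

theorem c3_long {y : V} (hy : y ∈ D2 nb) (hs : ¬ short nb y) : c3 nb y ≤ 1 := by
  rw [mem_D2] at hy
  have : ∃ z ∈ nb y, (nb z).card ≠ 3 := by
    by_contra hcon
    push Not at hcon
    exact hs ⟨hy, hcon⟩
  obtain ⟨z, hz, hz3⟩ := this
  have hsub : (nb y).filter (· ∈ D3 nb) ⊆ (nb y).erase z := by
    intro x hx
    rw [mem_filter, mem_D3] at hx
    rw [mem_erase]
    refine ⟨?_, hx.1⟩
    rintro rfl
    exact hz3 hx.2
  have := Finset.card_le_card hsub
  rw [Finset.card_erase_of_mem hz, hy] at this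
  exact this

open Classical in
theorem total_bound {r : ℝ} (h : Root r) (hd : Deg23 nb) :
    Real.log r * ∑ v, S nb (We nb r) v +
      ((D3 nb).filter (fun v => c3 nb v ≠ 1)).card * (1 / 1000) ≤
      ∑ v, Grow.h nb (We nb r) v := by
  set s : ℕ := ((D2 nb).filter (fun v => short nb v)).card with hs
  set l : ℕ := ((D2 nb).filter (fun v => ¬ short nb v)).card with hl
  have hsl : s + l = (D3 nb).card := by
    rw [hs, hl, Finset.card_filter_add_card_filter_not]
    exact hd.half
  -- the sum of the weights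
  have hS2 : ∑ v ∈ D2 nb, S nb (We nb r) v = s * (2 * (r + 2)) + l * (2 * (67 / 20)) := by
    have e : ∀ v ∈ D2 nb, S nb (We nb r) v =
        if short nb v then 2 * (r + 2) else 2 * (67 / 20) := by
      intro v hv
      rw [mem_D2] at hv
      obtain ⟨a, b, hab, hnb⟩ := Finset.card_eq_two.mp hv
      have ha : a ∈ nb v := by rw [hnb]; simp
      have hb : b ∈ nb v := by rw [hnb]; simp
      rw [S_two hab hnb, We_two r hd hv ha, We_two r hd hv hb]
      split_ifs <;> ring
    rw [Finset.sum_congr rfl e, Finset.sum_ite, Finset.sum_const, Finset.sum_const,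
      nsmul_eq_mul, nsmul_eq_mul]
  -- the counts
  have hc2 : ∑ v ∈ D3 nb, cnt nb 1 v = 2 * s := by
    unfold cnt
    rw [swap3 hd]
    have e : ∀ y, (((nb y).filter (· ∈ D3 nb)).card : ℝ) * ind 1 (typ nb y) =
        if y ∈ (D2 nb).filter (fun v => short nb v) then 2 else 0 := by
      intro y
      rcases ind_one (nb := nb) (y := y) with ⟨h1, h2⟩ | ⟨h1, h2⟩
      · rw [h1, if_pos (mem_filter.mpr ⟨mem_D2.mpr h2.1, h2⟩)]
        have := c3_short h2
        unfold c3 at this
        rw [this]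
        norm_num
      · rw [h1, if_neg (fun h' => h2 (mem_filter.mp h').2)]
        ring
    rw [Finset.sum_congr rfl fun y _ => e y, Finset.sum_ite_mem, Finset.univ_inter,
      Finset.sum_const, nsmul_eq_mul, ← hs]
    ring
  have hc3 : ∑ v ∈ D3 nb, cnt nb 2 v ≤ l := by
    unfold cnt
    rw [swap3 hd]
    have e : ∀ y, (((nb y).filter (· ∈ D3 nb)).card : ℝ) * ind 2 (typ nb y) ≤
        if y ∈ (D2 nb).filter (fun v => ¬ short nb v) then 1 else 0 := by
      intro y
      rcases ind_two hd (y := y) with ⟨h1, h2⟩ | ⟨h1, h2⟩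
      · rw [h1, if_pos (mem_filter.mpr h2)]
        have := c3_long h2.1 h2.2
        unfold c3 at this
        rw [mul_one]
        exact_mod_cast this
      · rw [h1, if_neg (fun h' => h2 (mem_filter.mp h'))]
        simp
    refine (Finset.sum_le_sum fun y _ => e y).trans ?_
    rw [Finset.sum_ite_mem, Finset.univ_inter, Finset.sum_const, nsmul_eq_mul, ← hl, mul_one]
  -- the sum of the local inequalities
  have hloc : ∑ v ∈ D3 nb, (Real.log r * (S nb (We nb r) v + 2 * (67 / 20) +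
      (r + 2 - 67 / 20) * cnt nb 1 v) + 29 / 100 * (1 - cnt nb 1 v / 2 - cnt nb 2 v) +
      (if c3 nb v ≠ 1 then 1 / 1000 else 0)) ≤ ∑ v ∈ D3 nb, Grow.h nb (We nb r) v := by
    refine Finset.sum_le_sum fun v hv => ?_
    have := local_bound h (mem_D3.mp hv)
    rw [cnt_zero] at this
    by_cases hc : c3 nb v = 1
    · rw [if_neg (by simpa using hc)]
      rw [if_pos (by exact_mod_cast hc)] at this
      exact this
    · rw [if_pos hc]
      rw [if_neg (by exact_mod_cast hc)] at this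
      exact this
  have h0 : ∑ v ∈ D2 nb, Grow.h nb (We nb r) v = 0 :=
    Finset.sum_eq_zero fun v hv => h_two r h hd (mem_D2.mp hv)
  rw [sum_split hd (fun v => Grow.h nb (We nb r) v), h0, zero_add,
    sum_split hd (fun v => S nb (We nb r) v), hS2]
  refine le_trans ?_ hloc
  have e1 : ∑ v ∈ D3 nb, (Real.log r * (S nb (We nb r) v + 2 * (67 / 20) +
      (r + 2 - 67 / 20) * cnt nb 1 v) + 29 / 100 * (1 - cnt nb 1 v / 2 - cnt nb 2 v) +
      (if c3 nb v ≠ 1 then 1 / 1000 else 0)) =
      Real.log r * (∑ v ∈ D3 nb, S nb (We nb r) v + (D3 nb).card * (2 * (67 / 20)) +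
      (r + 2 - 67 / 20) * ∑ v ∈ D3 nb, cnt nb 1 v) +
      29 / 100 * ((D3 nb).card - (∑ v ∈ D3 nb, cnt nb 1 v) / 2 - ∑ v ∈ D3 nb, cnt nb 2 v) +
      ((D3 nb).filter (fun v => c3 nb v ≠ 1)).card * (1 / 1000) := by
    rw [Finset.sum_add_distrib, Finset.sum_add_distrib, ← Finset.mul_sum, ← Finset.mul_sum,
      Finset.sum_add_distrib, Finset.sum_add_distrib, Finset.sum_sub_distrib,
      Finset.sum_sub_distrib, ← Finset.mul_sum, ← Finset.sum_div, Finset.sum_const,
      Finset.sum_const, nsmul_eq_mul, nsmul_eq_mul, mul_one, ← Finset.sum_filter,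
      Finset.sum_const, nsmul_eq_mul]
    have z1 : ∑ x ∈ D3 nb, (r + 2 - 67 / 20) * cnt nb 1 x =
        (r + 2 - 67 / 20) * ∑ x ∈ D3 nb, cnt nb 1 x := (Finset.mul_sum _ _ _).symm
    have z2 : ∑ x ∈ D3 nb, cnt nb 1 x / 2 = (∑ x ∈ D3 nb, cnt nb 1 x) / 2 :=
      (Finset.sum_div _ _ _).symm
    rw [z1, z2]
    ring
  rw [e1, hc2, ← hsl]
  push_cast
  have hlog := h.log_pos
  nlinarith [hc3]

end Pool.Agent.V11121.Grow
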