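import Mathlib

/-!
Non-backtracking walks and the entropy bound.
-/

namespace Pool.Agent.V11121.Grow

open Finset

set_option linter.unusedSectionVars false

variable {V : Type} [Fintype V] [DecidableEq V]

/-- The number of ways to continue the directed edge `(u, v)` by `L` non-backtracking steps.
`nb v` is the set of neighbours of `v`. -/
def N (nb : V → Finset V) : ℕ → V → V → ℕ
  | 0, _, _ => 1
  | (L + 1), u, v => ∑ x ∈ (nb v).erase u, N nb L v x

/-- The sum of the weights around `v`. -/
noncomputable def S (nb : V → Finset V) (W : V → V → ℝ) (v : V) : ℝ := ∑ x ∈ nb v, W v x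

/-- The flow along `u, v, x`. -/
noncomputable def fl (nb : V → Finset V) (W : V → V → ℝ) (u v x : V) : ℝ :=
  W u v + W v x - S nb W v / 2

/-- The weighted entropy produced at `v`. -/
noncomputable def h (nb : V → Finset V) (W : V → V → ℝ) (v : V) : ℝ :=
  ∑ u ∈ nb v, ∑ x ∈ (nb v).erase u, fl nb W u v x * Real.log (W u v / fl nb W u v x)

/-- A weight with a positive non-backtracking flow. -/
structure Good (nb : V → Finset V) (W : V → V → ℝ) : Prop where
  symm : ∀ u v, v ∈ nb u ↔ u ∈ nb v
  Wsymm : ∀ u v, W u v = W v u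
  pos : ∀ v, ∀ u ∈ nb v, ∀ x ∈ nb v, u ≠ x → 0 < fl nb W u v x
  sum : ∀ v, ∀ u ∈ nb v, ∑ x ∈ (nb v).erase u, fl nb W u v x = W u v
  ne : ∀ v, ∀ u ∈ nb v, ((nb v).erase u).Nonempty

variable {nb : V → Finset V} {W : V → V → ℝ}

theorem Good.Wpos (hg : Good nb W) {u v : V} (hu : u ∈ nb v) : 0 < W u v := by
  rw [← hg.sum v u hu]
  refine Finset.sum_pos ?_ (hg.ne v u hu)
  intro x hx
  rw [mem_erase] at hx
  exact hg.pos v u hu x hx.2 (Ne.symm hx.1)

theorem Good.fl_symm (hg : Good nb W) (u v x : V) : fl nb W u v x = fl nb W x v u := by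
  unfold fl
  rw [hg.Wsymm u v, hg.Wsymm v x]
  ring

theorem Good.Npos (hg : Good nb W) (L : ℕ) : ∀ u v, v ∈ nb u → 0 < N nb L u v := by
  induction L with
  | zero => intro u v _; simp [N]
  | succ L ih =>
    intro u v huv
    have hu : u ∈ nb v := (hg.symm u v).mp huv
    simp only [N]
    refine Finset.sum_pos ?_ (hg.ne v u hu)
    intro x hx
    rw [mem_erase] at hx
    exact ih v x hx.2

/-- The log-sum inequality. -/
theorem log_sum {ι : Type*} (s : Finset ι) (a b : ι → ℝ) (ha : ∀ i ∈ s, 0 < a i)
    (hb : ∀ i ∈ s, 0 < b i) (hs : s.Nonempty) :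
    ∑ i ∈ s, a i * (Real.log (b i) + Real.log ((∑ j ∈ s, a j) / a i)) ≤
      (∑ i ∈ s, a i) * Real.log (∑ i ∈ s, b i) := by
  set A := ∑ j ∈ s, a j with hA
  set B := ∑ j ∈ s, b j with hB
  have hApos : 0 < A := Finset.sum_pos ha hs
  have hBpos : 0 < B := Finset.sum_pos hb hs
  have key : ∀ i ∈ s, a i * (Real.log (b i) + Real.log (A / a i)) ≤
      a i * Real.log B + (b i * A / B - a i) := by
    intro i hi
    have h1 := ha i hi
    have h2 := hb i hi
    have h3 : Real.log (b i) + Real.log (A / a i) - Real.log B =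
        Real.log (b i * (A / a i) / B) := by
      rw [Real.log_div (by positivity) hBpos.ne', Real.log_mul h2.ne' (by positivity)]
    have h4 : Real.log (b i * (A / a i) / B) ≤ b i * (A / a i) / B - 1 :=
      Real.log_le_sub_one_of_pos (by positivity)
    have h5 : a i * (b i * (A / a i) / B - 1) = b i * A / B - a i := by
      field_simp
    nlinarith [mul_le_mul_of_nonneg_left h4 h1.le]
  calc ∑ i ∈ s, a i * (Real.log (b i) + Real.log (A / a i))
      ≤ ∑ i ∈ s, (a i * Real.log B + (b i * A / B - a i)) := Finset.sum_le_sum key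
    _ = A * Real.log B := by
      rw [Finset.sum_add_distrib, Finset.sum_sub_distrib, ← Finset.sum_mul, ← hA]
      have : ∑ i ∈ s, b i * A / B = A := by
        rw [← Finset.sum_div, ← Finset.sum_mul, ← hB]
        field_simp
      rw [this]
      ring

theorem Good.swap (hg : Good nb W) (f : V → V → V → ℝ) :
    ∑ u, ∑ v ∈ nb u, ∑ x ∈ (nb v).erase u, f u v x =
      ∑ v, ∑ u ∈ nb v, ∑ x ∈ (nb v).erase u, f u v x := by
  refine Finset.sum_comm' ?_
  intro u v
  simp only [mem_univ, true_and, and_true]
  exact hg.symm u v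

/-- The weighted entropy bound. -/
theorem Good.bound (hg : Good nb W) (L : ℕ) :
    (L : ℝ) * ∑ v, h nb W v ≤ ∑ u, ∑ v ∈ nb u, W u v * Real.log (N nb L u v) := by
  induction L with
  | zero => simp [N]
  | succ L ih =>
    have step : ∀ u, ∀ v ∈ nb u, ∑ x ∈ (nb v).erase u,
        fl nb W u v x * (Real.log (N nb L v x) + Real.log (W u v / fl nb W u v x)) ≤
        W u v * Real.log (N nb (L + 1) u v) := by
      intro u v hv
      have hu : u ∈ nb v := (hg.symm u v).mp hv
      have := log_sum ((nb v).erase u) (fun x => fl nb W u v x)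
        (fun x => (N nb L v x : ℝ))
        (by
          intro x hx
          rw [mem_erase] at hx
          exact hg.pos v u hu x hx.2 (Ne.symm hx.1))
        (by
          intro x hx
          rw [mem_erase] at hx
          exact_mod_cast hg.Npos L v x hx.2)
        (hg.ne v u hu)
      rw [hg.sum v u hu] at this
      simp only [N]
      push_cast
      exact this
    have h1 : ∑ u, ∑ v ∈ nb u, ∑ x ∈ (nb v).erase u,
        fl nb W u v x * (Real.log (N nb L v x) + Real.log (W u v / fl nb W u v x)) ≤
        ∑ u, ∑ v ∈ nb u, W u v * Real.log (N nb (L + 1) u v) :=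
      Finset.sum_le_sum fun u _ => Finset.sum_le_sum fun v hv => step u v hv
    have h2 : ∑ u, ∑ v ∈ nb u, ∑ x ∈ (nb v).erase u,
        fl nb W u v x * (Real.log (N nb L v x) + Real.log (W u v / fl nb W u v x)) =
        (∑ u, ∑ v ∈ nb u, W u v * Real.log (N nb L u v)) + ∑ v, h nb W v := by
      rw [hg.swap]
      have e1 : ∀ v, ∑ u ∈ nb v, ∑ x ∈ (nb v).erase u,
          fl nb W u v x * (Real.log (N nb L v x) + Real.log (W u v / fl nb W u v x)) =
          (∑ x ∈ nb v, W v x * Real.log (N nb L v x)) + h nb W v := by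
        intro v
        unfold h
        have e2 : ∑ u ∈ nb v, ∑ x ∈ (nb v).erase u,
            fl nb W u v x * (Real.log (N nb L v x) + Real.log (W u v / fl nb W u v x)) =
            (∑ u ∈ nb v, ∑ x ∈ (nb v).erase u, fl nb W u v x * Real.log (N nb L v x)) +
            ∑ u ∈ nb v, ∑ x ∈ (nb v).erase u,
              fl nb W u v x * Real.log (W u v / fl nb W u v x) := by
          rw [← Finset.sum_add_distrib]
          refine Finset.sum_congr rfl fun u _ => ?_
          rw [← Finset.sum_add_distrib]
          refine Finset.sum_congr rfl fun x _ => ?_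
          ring
        rw [e2]
        congr 1
        have e3 : ∑ u ∈ nb v, ∑ x ∈ (nb v).erase u,
            fl nb W u v x * Real.log (N nb L v x) =
            ∑ x ∈ nb v, ∑ u ∈ (nb v).erase x,
              fl nb W u v x * Real.log (N nb L v x) := by
          refine Finset.sum_comm' ?_
          intro u x
          simp only [mem_erase]
          tauto
        rw [e3]
        refine Finset.sum_congr rfl fun x hx => ?_
        rw [← Finset.sum_mul]
        congr 1
        have e4 := hg.sum v x hx
        rw [hg.Wsymm x v] at e4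
        rw [← e4]
        refine Finset.sum_congr rfl fun u _ => ?_
        exact hg.fl_symm u v x
      rw [Finset.sum_congr rfl fun v _ => e1 v, Finset.sum_add_distrib]
    rw [h2] at h1
    push_cast
    linarith

theorem Good.total (hg : Good nb W) : ∑ u, ∑ v ∈ nb u, W u v = ∑ v, S nb W v := rfl

/-- The entropy bound for the number of walks: if every count is at most `T`, then
`L * ∑ h ≤ (∑ S) * log T`. -/
theorem Good.bound_total (hg : Good nb W) (L : ℕ) {T : ℝ}
    (hT : ∀ u, ∀ v ∈ nb u, (N nb L u v : ℝ) ≤ T) :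
    (L : ℝ) * ∑ v, h nb W v ≤ (∑ v, S nb W v) * Real.log T := by
  refine (hg.bound L).trans ?_
  rw [← hg.total, Finset.sum_mul]
  refine Finset.sum_le_sum fun u _ => ?_
  rw [Finset.sum_mul]
  refine Finset.sum_le_sum fun v hv => ?_
  have hW : 0 < W u v := by
    rw [hg.Wsymm]
    exact hg.Wpos hv
  refine mul_le_mul_of_nonneg_left ?_ hW.le
  refine Real.log_le_log ?_ (hT u v hv)
  exact_mod_cast hg.Npos L u v hv

end Pool.Agent.V11121.Grow
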