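import Pool.Agent.V11121.Grow.Jensen

/-!
The local inequality at a vertex of degree three.
-/

namespace Pool.Agent.V11121.Grow

/-- Entropy of the flow entering along an edge of weight `a`. -/
noncomputable def ent (a b c : ℝ) : ℝ :=
  (a + b - c) / 2 * Real.log (a / ((a + b - c) / 2)) +
    (a + c - b) / 2 * Real.log (a / ((a + c - b) / 2))

/-- Total entropy at a vertex whose edges have weights `a, b, c`. -/
noncomputable def H (a b c : ℝ) : ℝ := ent a b c + ent b a c + ent c a b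

theorem ent_comm (a b c : ℝ) : ent a b c = ent a c b := by
  unfold ent
  ring

theorem H_swap (a b c : ℝ) : H b a c = H a b c := by
  unfold H
  rw [ent_comm c b a]
  ring

theorem H_swap' (a b c : ℝ) : H a c b = H a b c := by
  unfold H
  rw [ent_comm a c b]
  ring

theorem ent_lower {a b c : ℝ} (ha : 0 < a) (h1 : 0 < a + b - c) (h2 : 0 < a + c - b) :
    a * Real.log 2 - (b - c) ^ 2 / a ≤ ent a b c := by
  have key : ∀ p : ℝ, 0 < p → Real.log 2 + 1 - 2 * p / a ≤ Real.log (a / p) := by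
    intro p hp
    have e : Real.log (a / p) = Real.log 2 + Real.log (a / (2 * p)) := by
      rw [← Real.log_mul (by norm_num) (by positivity)]
      congr 1
      field_simp
    have h3 := Real.one_sub_inv_le_log_of_pos (show 0 < a / (2 * p) by positivity)
    have e2 : (a / (2 * p))⁻¹ = 2 * p / a := by
      rw [inv_div]
    rw [e2] at h3
    rw [e]
    linarith
  have k1 := mul_le_mul_of_nonneg_left (key ((a + b - c) / 2) (by linarith))
    (show (0 : ℝ) ≤ (a + b - c) / 2 by linarith)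
  have k2 := mul_le_mul_of_nonneg_left (key ((a + c - b) / 2) (by linarith))
    (show (0 : ℝ) ≤ (a + c - b) / 2 by linarith)
  have e : (a + b - c) / 2 * (Real.log 2 + 1 - 2 * ((a + b - c) / 2) / a) +
      (a + c - b) / 2 * (Real.log 2 + 1 - 2 * ((a + c - b) / 2) / a) =
      a * Real.log 2 - (b - c) ^ 2 / a := by
    field_simp
    ring
  unfold ent
  linarith

/-- Bounds for the root. -/
structure Root (r : ℝ) : Prop where
  cube : r ^ 3 = r + 2
  pos : 0 < r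

theorem Root.lo {r : ℝ} (h : Root r) : 1.52137 < r := by
  by_contra hc
  have hc' : r ≤ 1.52137 := not_lt.mp hc
  have h1 := h.cube
  have h2 := h.pos
  nlinarith [mul_nonneg h2.le (sub_nonneg.mpr hc'), mul_nonneg (mul_nonneg h2.le h2.le)
    (sub_nonneg.mpr hc')]

theorem Root.hi {r : ℝ} (h : Root r) : r < 1.52138 := by
  by_contra hc
  have hc' : 1.52138 ≤ r := not_lt.mp hc
  have h1 := h.cube
  have h2 := h.pos
  nlinarith [mul_nonneg h2.le (sub_nonneg.mpr hc'), mul_nonneg (mul_nonneg h2.le h2.le)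
    (sub_nonneg.mpr hc')]

theorem log_three : Real.log 3 ≤ (19 * Real.log 2 + 7153 / 524288) / 12 := by
  have h1 : Real.log (531441 / 524288) ≤ 531441 / 524288 - 1 :=
    Real.log_le_sub_one_of_pos (by norm_num)
  have h2 : Real.log (531441 / 524288) = 12 * Real.log 3 - 19 * Real.log 2 := by
    rw [Real.log_div (by norm_num) (by norm_num), show (531441 : ℝ) = 3 ^ 12 by norm_num,
      show (524288 : ℝ) = 2 ^ 19 by norm_num, Real.log_pow, Real.log_pow]
    norm_num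
  rw [h2] at h1
  linarith

theorem Root.log_le {r : ℝ} (h : Root r) : Real.log r ≤ 0.41973 := by
  have h1 : Real.log (r / (3 / 2)) ≤ r / (3 / 2) - 1 :=
    Real.log_le_sub_one_of_pos (by have := h.pos; positivity)
  rw [Real.log_div h.pos.ne' (by norm_num), Real.log_div (by norm_num) (by norm_num)] at h1
  have h2 := log_three
  have h3 := Real.log_two_lt_d9
  have h4 := h.hi
  linarith

theorem Root.log_pos {r : ℝ} (h : Root r) : 0 < Real.log r :=
  Real.log_pos (by have := h.lo; linarith)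

theorem type_003 {r : ℝ} (h : Root r) :
    Real.log r * ((67 / 20 : ℝ) + (67 / 20 : ℝ) + (67 / 20 : ℝ) + 2 * (67 / 20) + (r + 2 - 67 / 20) * 0) +
      29 / 100 * (1 - (0 : ℝ) / 2 - 3) + 1 / 1000 ≤ H (67 / 20 : ℝ) (67 / 20 : ℝ) (67 / 20 : ℝ) := by
  have h1 := h.lo
  have h2 := h.hi
  have h3 := Real.log_two_gt_d9
  have e1 : ((67 / 20 : ℝ) - (67 / 20 : ℝ)) ^ 2 / (67 / 20 : ℝ) ≤ 0 := by
    rw [div_le_iff₀ (by linarith)]
    nlinarith [mul_pos (sub_pos.mpr h1) (sub_pos.mpr h2)]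
  have g1 := ent_lower (a := (67 / 20 : ℝ)) (b := (67 / 20 : ℝ)) (c := (67 / 20 : ℝ)) (by linarith) (by linarith) (by linarith)
  have e2 : ((67 / 20 : ℝ) - (67 / 20 : ℝ)) ^ 2 / (67 / 20 : ℝ) ≤ 0 := by
    rw [div_le_iff₀ (by linarith)]
    nlinarith [mul_pos (sub_pos.mpr h1) (sub_pos.mpr h2)]
  have g2 := ent_lower (a := (67 / 20 : ℝ)) (b := (67 / 20 : ℝ)) (c := (67 / 20 : ℝ)) (by linarith) (by linarith) (by linarith)
  have e3 : ((67 / 20 : ℝ) - (67 / 20 : ℝ)) ^ 2 / (67 / 20 : ℝ) ≤ 0 := by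
    rw [div_le_iff₀ (by linarith)]
    nlinarith [mul_pos (sub_pos.mpr h1) (sub_pos.mpr h2)]
  have g3 := ent_lower (a := (67 / 20 : ℝ)) (b := (67 / 20 : ℝ)) (c := (67 / 20 : ℝ)) (by linarith) (by linarith) (by linarith)
  have h4 : Real.log r * ((67 / 20 : ℝ) + (67 / 20 : ℝ) + (67 / 20 : ℝ) + 2 * (67 / 20) + (r + 2 - 67 / 20) * 0) ≤
      0.41973 * ((67 / 20 : ℝ) + (67 / 20 : ℝ) + (67 / 20 : ℝ) + 2 * (67 / 20) + (r + 2 - 67 / 20) * 0) :=
    mul_le_mul_of_nonneg_right h.log_le (by linarith)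
  have h5 : ((67 / 20 : ℝ) + (67 / 20 : ℝ) + (67 / 20 : ℝ)) * 0.6931471803 ≤ ((67 / 20 : ℝ) + (67 / 20 : ℝ) + (67 / 20 : ℝ)) * Real.log 2 :=
    mul_le_mul_of_nonneg_left h3.le (by linarith)
  unfold H
  linarith

theorem type_012 {r : ℝ} (h : Root r) :
    Real.log r * ((r + 2) + (67 / 20 : ℝ) + (67 / 20 : ℝ) + 2 * (67 / 20) + (r + 2 - 67 / 20) * 1) +
      29 / 100 * (1 - (1 : ℝ) / 2 - 2) + 1 / 1000 ≤ H (r + 2) (67 / 20 : ℝ) (67 / 20 : ℝ) := by
  have h1 := h.lo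
  have h2 := h.hi
  have h3 := Real.log_two_gt_d9
  have e1 : ((67 / 20 : ℝ) - (67 / 20 : ℝ)) ^ 2 / (r + 2) ≤ 0 := by
    rw [div_le_iff₀ (by linarith)]
    nlinarith [mul_pos (sub_pos.mpr h1) (sub_pos.mpr h2)]
  have g1 := ent_lower (a := (r + 2)) (b := (67 / 20 : ℝ)) (c := (67 / 20 : ℝ)) (by linarith) (by linarith) (by linarith)
  have e2 : ((r + 2) - (67 / 20 : ℝ)) ^ 2 / (67 / 20 : ℝ) ≤ 0.0089 := by
    rw [div_le_iff₀ (by linarith)]
    nlinarith [mul_pos (sub_pos.mpr h1) (sub_pos.mpr h2)]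
  have g2 := ent_lower (a := (67 / 20 : ℝ)) (b := (r + 2)) (c := (67 / 20 : ℝ)) (by linarith) (by linarith) (by linarith)
  have e3 : ((r + 2) - (67 / 20 : ℝ)) ^ 2 / (67 / 20 : ℝ) ≤ 0.0089 := by
    rw [div_le_iff₀ (by linarith)]
    nlinarith [mul_pos (sub_pos.mpr h1) (sub_pos.mpr h2)]
  have g3 := ent_lower (a := (67 / 20 : ℝ)) (b := (r + 2)) (c := (67 / 20 : ℝ)) (by linarith) (by linarith) (by linarith)
  have h4 : Real.log r * ((r + 2) + (67 / 20 : ℝ) + (67 / 20 : ℝ) + 2 * (67 / 20) + (r + 2 - 67 / 20) * 1) ≤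
      0.41973 * ((r + 2) + (67 / 20 : ℝ) + (67 / 20 : ℝ) + 2 * (67 / 20) + (r + 2 - 67 / 20) * 1) :=
    mul_le_mul_of_nonneg_right h.log_le (by linarith)
  have h5 : ((r + 2) + (67 / 20 : ℝ) + (67 / 20 : ℝ)) * 0.6931471803 ≤ ((r + 2) + (67 / 20 : ℝ) + (67 / 20 : ℝ)) * Real.log 2 :=
    mul_le_mul_of_nonneg_left h3.le (by linarith)
  unfold H
  linarith

theorem type_021 {r : ℝ} (h : Root r) :
    Real.log r * ((r + 2) + (r + 2) + (67 / 20 : ℝ) + 2 * (67 / 20) + (r + 2 - 67 / 20) * 2) +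
      29 / 100 * (1 - (2 : ℝ) / 2 - 1) + 1 / 1000 ≤ H (r + 2) (r + 2) (67 / 20 : ℝ) := by
  have h1 := h.lo
  have h2 := h.hi
  have h3 := Real.log_two_gt_d9
  have e1 : ((r + 2) - (67 / 20 : ℝ)) ^ 2 / (r + 2) ≤ 0.0085 := by
    rw [div_le_iff₀ (by linarith)]
    nlinarith [mul_pos (sub_pos.mpr h1) (sub_pos.mpr h2)]
  have g1 := ent_lower (a := (r + 2)) (b := (r + 2)) (c := (67 / 20 : ℝ)) (by linarith) (by linarith) (by linarith)
  have e2 : ((r + 2) - (67 / 20 : ℝ)) ^ 2 / (r + 2) ≤ 0.0085 := by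
    rw [div_le_iff₀ (by linarith)]
    nlinarith [mul_pos (sub_pos.mpr h1) (sub_pos.mpr h2)]
  have g2 := ent_lower (a := (r + 2)) (b := (r + 2)) (c := (67 / 20 : ℝ)) (by linarith) (by linarith) (by linarith)
  have e3 : ((r + 2) - (r + 2)) ^ 2 / (67 / 20 : ℝ) ≤ 0 := by
    rw [div_le_iff₀ (by linarith)]
    nlinarith [mul_pos (sub_pos.mpr h1) (sub_pos.mpr h2)]
  have g3 := ent_lower (a := (67 / 20 : ℝ)) (b := (r + 2)) (c := (r + 2)) (by linarith) (by linarith) (by linarith)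
  have h4 : Real.log r * ((r + 2) + (r + 2) + (67 / 20 : ℝ) + 2 * (67 / 20) + (r + 2 - 67 / 20) * 2) ≤
      0.41973 * ((r + 2) + (r + 2) + (67 / 20 : ℝ) + 2 * (67 / 20) + (r + 2 - 67 / 20) * 2) :=
    mul_le_mul_of_nonneg_right h.log_le (by linarith)
  have h5 : ((r + 2) + (r + 2) + (67 / 20 : ℝ)) * 0.6931471803 ≤ ((r + 2) + (r + 2) + (67 / 20 : ℝ)) * Real.log 2 :=
    mul_le_mul_of_nonneg_left h3.le (by linarith)
  unfold H
  linarith

theorem type_030 {r : ℝ} (h : Root r) :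
    Real.log r * ((r + 2) + (r + 2) + (r + 2) + 2 * (67 / 20) + (r + 2 - 67 / 20) * 3) +
      29 / 100 * (1 - (3 : ℝ) / 2 - 0) + 1 / 1000 ≤ H (r + 2) (r + 2) (r + 2) := by
  have h1 := h.lo
  have h2 := h.hi
  have h3 := Real.log_two_gt_d9
  have e1 : ((r + 2) - (r + 2)) ^ 2 / (r + 2) ≤ 0 := by
    rw [div_le_iff₀ (by linarith)]
    nlinarith [mul_pos (sub_pos.mpr h1) (sub_pos.mpr h2)]
  have g1 := ent_lower (a := (r + 2)) (b := (r + 2)) (c := (r + 2)) (by linarith) (by linarith) (by linarith)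
  have e2 : ((r + 2) - (r + 2)) ^ 2 / (r + 2) ≤ 0 := by
    rw [div_le_iff₀ (by linarith)]
    nlinarith [mul_pos (sub_pos.mpr h1) (sub_pos.mpr h2)]
  have g2 := ent_lower (a := (r + 2)) (b := (r + 2)) (c := (r + 2)) (by linarith) (by linarith) (by linarith)
  have e3 : ((r + 2) - (r + 2)) ^ 2 / (r + 2) ≤ 0 := by
    rw [div_le_iff₀ (by linarith)]
    nlinarith [mul_pos (sub_pos.mpr h1) (sub_pos.mpr h2)]
  have g3 := ent_lower (a := (r + 2)) (b := (r + 2)) (c := (r + 2)) (by linarith) (by linarith) (by linarith)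
  have h4 : Real.log r * ((r + 2) + (r + 2) + (r + 2) + 2 * (67 / 20) + (r + 2 - 67 / 20) * 3) ≤
      0.41973 * ((r + 2) + (r + 2) + (r + 2) + 2 * (67 / 20) + (r + 2 - 67 / 20) * 3) :=
    mul_le_mul_of_nonneg_right h.log_le (by linarith)
  have h5 : ((r + 2) + (r + 2) + (r + 2)) * 0.6931471803 ≤ ((r + 2) + (r + 2) + (r + 2)) * Real.log 2 :=
    mul_le_mul_of_nonneg_left h3.le (by linarith)
  unfold H
  linarith

theorem type_102 {r : ℝ} (h : Root r) :
    Real.log r * ((4 : ℝ) + (67 / 20 : ℝ) + (67 / 20 : ℝ) + 2 * (67 / 20) + (r + 2 - 67 / 20) * 0) +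
      29 / 100 * (1 - (0 : ℝ) / 2 - 2) + 0 ≤ H (4 : ℝ) (67 / 20 : ℝ) (67 / 20 : ℝ) := by
  have h1 := h.lo
  have h2 := h.hi
  have h3 := Real.log_two_gt_d9
  have e1 : ((67 / 20 : ℝ) - (67 / 20 : ℝ)) ^ 2 / (4 : ℝ) ≤ 0 := by
    rw [div_le_iff₀ (by linarith)]
    nlinarith [mul_pos (sub_pos.mpr h1) (sub_pos.mpr h2)]
  have g1 := ent_lower (a := (4 : ℝ)) (b := (67 / 20 : ℝ)) (c := (67 / 20 : ℝ)) (by linarith) (by linarith) (by linarith)
  have e2 : ((4 : ℝ) - (67 / 20 : ℝ)) ^ 2 / (67 / 20 : ℝ) ≤ 0.1263 := by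
    rw [div_le_iff₀ (by linarith)]
    nlinarith [mul_pos (sub_pos.mpr h1) (sub_pos.mpr h2)]
  have g2 := ent_lower (a := (67 / 20 : ℝ)) (b := (4 : ℝ)) (c := (67 / 20 : ℝ)) (by linarith) (by linarith) (by linarith)
  have e3 : ((4 : ℝ) - (67 / 20 : ℝ)) ^ 2 / (67 / 20 : ℝ) ≤ 0.1263 := by
    rw [div_le_iff₀ (by linarith)]
    nlinarith [mul_pos (sub_pos.mpr h1) (sub_pos.mpr h2)]
  have g3 := ent_lower (a := (67 / 20 : ℝ)) (b := (4 : ℝ)) (c := (67 / 20 : ℝ)) (by linarith) (by linarith) (by linarith)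
  have h4 : Real.log r * ((4 : ℝ) + (67 / 20 : ℝ) + (67 / 20 : ℝ) + 2 * (67 / 20) + (r + 2 - 67 / 20) * 0) ≤
      0.41973 * ((4 : ℝ) + (67 / 20 : ℝ) + (67 / 20 : ℝ) + 2 * (67 / 20) + (r + 2 - 67 / 20) * 0) :=
    mul_le_mul_of_nonneg_right h.log_le (by linarith)
  have h5 : ((4 : ℝ) + (67 / 20 : ℝ) + (67 / 20 : ℝ)) * 0.6931471803 ≤ ((4 : ℝ) + (67 / 20 : ℝ) + (67 / 20 : ℝ)) * Real.log 2 :=
    mul_le_mul_of_nonneg_left h3.le (by linarith)
  unfold H
  linarith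

theorem type_111 {r : ℝ} (h : Root r) :
    Real.log r * ((4 : ℝ) + (r + 2) + (67 / 20 : ℝ) + 2 * (67 / 20) + (r + 2 - 67 / 20) * 1) +
      29 / 100 * (1 - (1 : ℝ) / 2 - 1) + 0 ≤ H (4 : ℝ) (r + 2) (67 / 20 : ℝ) := by
  have h1 := h.lo
  have h2 := h.hi
  have h3 := Real.log_two_gt_d9
  have e1 : ((r + 2) - (67 / 20 : ℝ)) ^ 2 / (4 : ℝ) ≤ 0.0075 := by
    rw [div_le_iff₀ (by linarith)]
    nlinarith [mul_pos (sub_pos.mpr h1) (sub_pos.mpr h2)]
  have g1 := ent_lower (a := (4 : ℝ)) (b := (r + 2)) (c := (67 / 20 : ℝ)) (by linarith) (by linarith) (by linarith)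
  have e2 : ((4 : ℝ) - (67 / 20 : ℝ)) ^ 2 / (r + 2) ≤ 0.1201 := by
    rw [div_le_iff₀ (by linarith)]
    nlinarith [mul_pos (sub_pos.mpr h1) (sub_pos.mpr h2)]
  have g2 := ent_lower (a := (r + 2)) (b := (4 : ℝ)) (c := (67 / 20 : ℝ)) (by linarith) (by linarith) (by linarith)
  have e3 : ((4 : ℝ) - (r + 2)) ^ 2 / (67 / 20 : ℝ) ≤ 0.0685 := by
    rw [div_le_iff₀ (by linarith)]
    nlinarith [mul_pos (sub_pos.mpr h1) (sub_pos.mpr h2)]
  have g3 := ent_lower (a := (67 / 20 : ℝ)) (b := (4 : ℝ)) (c := (r + 2)) (by linarith) (by linarith) (by linarith)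
  have h4 : Real.log r * ((4 : ℝ) + (r + 2) + (67 / 20 : ℝ) + 2 * (67 / 20) + (r + 2 - 67 / 20) * 1) ≤
      0.41973 * ((4 : ℝ) + (r + 2) + (67 / 20 : ℝ) + 2 * (67 / 20) + (r + 2 - 67 / 20) * 1) :=
    mul_le_mul_of_nonneg_right h.log_le (by linarith)
  have h5 : ((4 : ℝ) + (r + 2) + (67 / 20 : ℝ)) * 0.6931471803 ≤ ((4 : ℝ) + (r + 2) + (67 / 20 : ℝ)) * Real.log 2 :=
    mul_le_mul_of_nonneg_left h3.le (by linarith)
  unfold H
  linarith

theorem type_201 {r : ℝ} (h : Root r) :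
    Real.log r * ((4 : ℝ) + (4 : ℝ) + (67 / 20 : ℝ) + 2 * (67 / 20) + (r + 2 - 67 / 20) * 0) +
      29 / 100 * (1 - (0 : ℝ) / 2 - 1) + 1 / 1000 ≤ H (4 : ℝ) (4 : ℝ) (67 / 20 : ℝ) := by
  have h1 := h.lo
  have h2 := h.hi
  have h3 := Real.log_two_gt_d9
  have e1 : ((4 : ℝ) - (67 / 20 : ℝ)) ^ 2 / (4 : ℝ) ≤ 0.1058 := by
    rw [div_le_iff₀ (by linarith)]
    nlinarith [mul_pos (sub_pos.mpr h1) (sub_pos.mpr h2)]
  have g1 := ent_lower (a := (4 : ℝ)) (b := (4 : ℝ)) (c := (67 / 20 : ℝ)) (by linarith) (by linarith) (by linarith)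
  have e2 : ((4 : ℝ) - (67 / 20 : ℝ)) ^ 2 / (4 : ℝ) ≤ 0.1058 := by
    rw [div_le_iff₀ (by linarith)]
    nlinarith [mul_pos (sub_pos.mpr h1) (sub_pos.mpr h2)]
  have g2 := ent_lower (a := (4 : ℝ)) (b := (4 : ℝ)) (c := (67 / 20 : ℝ)) (by linarith) (by linarith) (by linarith)
  have e3 : ((4 : ℝ) - (4 : ℝ)) ^ 2 / (67 / 20 : ℝ) ≤ 0 := by
    rw [div_le_iff₀ (by linarith)]
    nlinarith [mul_pos (sub_pos.mpr h1) (sub_pos.mpr h2)]
  have g3 := ent_lower (a := (67 / 20 : ℝ)) (b := (4 : ℝ)) (c := (4 : ℝ)) (by linarith) (by linarith) (by linarith)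
  have h4 : Real.log r * ((4 : ℝ) + (4 : ℝ) + (67 / 20 : ℝ) + 2 * (67 / 20) + (r + 2 - 67 / 20) * 0) ≤
      0.41973 * ((4 : ℝ) + (4 : ℝ) + (67 / 20 : ℝ) + 2 * (67 / 20) + (r + 2 - 67 / 20) * 0) :=
    mul_le_mul_of_nonneg_right h.log_le (by linarith)
  have h5 : ((4 : ℝ) + (4 : ℝ) + (67 / 20 : ℝ)) * 0.6931471803 ≤ ((4 : ℝ) + (4 : ℝ) + (67 / 20 : ℝ)) * Real.log 2 :=
    mul_le_mul_of_nonneg_left h3.le (by linarith)
  unfold H
  linarith

theorem type_210 {r : ℝ} (h : Root r) :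
    Real.log r * ((4 : ℝ) + (4 : ℝ) + (r + 2) + 2 * (67 / 20) + (r + 2 - 67 / 20) * 1) +
      29 / 100 * (1 - (1 : ℝ) / 2 - 0) + 1 / 1000 ≤ H (4 : ℝ) (4 : ℝ) (r + 2) := by
  have h1 := h.lo
  have h2 := h.hi
  have h3 := Real.log_two_gt_d9
  have e1 : ((4 : ℝ) - (r + 2)) ^ 2 / (4 : ℝ) ≤ 0.0574 := by
    rw [div_le_iff₀ (by linarith)]
    nlinarith [mul_pos (sub_pos.mpr h1) (sub_pos.mpr h2)]
  have g1 := ent_lower (a := (4 : ℝ)) (b := (4 : ℝ)) (c := (r + 2)) (by linarith) (by linarith) (by linarith)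
  have e2 : ((4 : ℝ) - (r + 2)) ^ 2 / (4 : ℝ) ≤ 0.0574 := by
    rw [div_le_iff₀ (by linarith)]
    nlinarith [mul_pos (sub_pos.mpr h1) (sub_pos.mpr h2)]
  have g2 := ent_lower (a := (4 : ℝ)) (b := (4 : ℝ)) (c := (r + 2)) (by linarith) (by linarith) (by linarith)
  have e3 : ((4 : ℝ) - (4 : ℝ)) ^ 2 / (r + 2) ≤ 0 := by
    rw [div_le_iff₀ (by linarith)]
    nlinarith [mul_pos (sub_pos.mpr h1) (sub_pos.mpr h2)]
  have g3 := ent_lower (a := (r + 2)) (b := (4 : ℝ)) (c := (4 : ℝ)) (by linarith) (by linarith) (by linarith)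
  have h4 : Real.log r * ((4 : ℝ) + (4 : ℝ) + (r + 2) + 2 * (67 / 20) + (r + 2 - 67 / 20) * 1) ≤
      0.41973 * ((4 : ℝ) + (4 : ℝ) + (r + 2) + 2 * (67 / 20) + (r + 2 - 67 / 20) * 1) :=
    mul_le_mul_of_nonneg_right h.log_le (by linarith)
  have h5 : ((4 : ℝ) + (4 : ℝ) + (r + 2)) * 0.6931471803 ≤ ((4 : ℝ) + (4 : ℝ) + (r + 2)) * Real.log 2 :=
    mul_le_mul_of_nonneg_left h3.le (by linarith)
  unfold H
  linarith

theorem type_300 {r : ℝ} (h : Root r) :
    Real.log r * ((4 : ℝ) + (4 : ℝ) + (4 : ℝ) + 2 * (67 / 20) + (r + 2 - 67 / 20) * 0) +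
      29 / 100 * (1 - (0 : ℝ) / 2 - 0) + 1 / 1000 ≤ H (4 : ℝ) (4 : ℝ) (4 : ℝ) := by
  have h1 := h.lo
  have h2 := h.hi
  have h3 := Real.log_two_gt_d9
  have e1 : ((4 : ℝ) - (4 : ℝ)) ^ 2 / (4 : ℝ) ≤ 0 := by
    rw [div_le_iff₀ (by linarith)]
    nlinarith [mul_pos (sub_pos.mpr h1) (sub_pos.mpr h2)]
  have g1 := ent_lower (a := (4 : ℝ)) (b := (4 : ℝ)) (c := (4 : ℝ)) (by linarith) (by linarith) (by linarith)
  have e2 : ((4 : ℝ) - (4 : ℝ)) ^ 2 / (4 : ℝ) ≤ 0 := by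
    rw [div_le_iff₀ (by linarith)]
    nlinarith [mul_pos (sub_pos.mpr h1) (sub_pos.mpr h2)]
  have g2 := ent_lower (a := (4 : ℝ)) (b := (4 : ℝ)) (c := (4 : ℝ)) (by linarith) (by linarith) (by linarith)
  have e3 : ((4 : ℝ) - (4 : ℝ)) ^ 2 / (4 : ℝ) ≤ 0 := by
    rw [div_le_iff₀ (by linarith)]
    nlinarith [mul_pos (sub_pos.mpr h1) (sub_pos.mpr h2)]
  have g3 := ent_lower (a := (4 : ℝ)) (b := (4 : ℝ)) (c := (4 : ℝ)) (by linarith) (by linarith) (by linarith)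
  have h4 : Real.log r * ((4 : ℝ) + (4 : ℝ) + (4 : ℝ) + 2 * (67 / 20) + (r + 2 - 67 / 20) * 0) ≤
      0.41973 * ((4 : ℝ) + (4 : ℝ) + (4 : ℝ) + 2 * (67 / 20) + (r + 2 - 67 / 20) * 0) :=
    mul_le_mul_of_nonneg_right h.log_le (by linarith)
  have h5 : ((4 : ℝ) + (4 : ℝ) + (4 : ℝ)) * 0.6931471803 ≤ ((4 : ℝ) + (4 : ℝ) + (4 : ℝ)) * Real.log 2 :=
    mul_le_mul_of_nonneg_left h3.le (by linarith)
  unfold H
  linarith

/-- The extremal case. -/
theorem type_120 {r : ℝ} (h : Root r) :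
    H 4 (r + 2) (r + 2) = Real.log r * (12 + 4 * r) := by
  have hr := h.pos
  have h2 : Real.log (r + 2) = 3 * Real.log r := by
    rw [← h.cube, Real.log_pow]
    norm_num
  unfold H ent
  have a1 : (4 + (r + 2) - (r + 2)) / 2 = (2 : ℝ) := by ring
  have a2 : (r + 2 + 4 - (r + 2)) / 2 = (2 : ℝ) := by ring
  have a3 : (r + 2 + (r + 2) - 4) / 2 = r := by ring
  rw [a1, a2, a3]
  have l1 : Real.log (4 / 2) = Real.log 2 := by norm_num
  have l2 : Real.log ((r + 2) / 2) = 3 * Real.log r - Real.log 2 := by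
    rw [Real.log_div (by positivity) (by norm_num), h2]
  have l3 : Real.log ((r + 2) / r) = 2 * Real.log r := by
    rw [Real.log_div (by positivity) hr.ne', h2]
    ring
  rw [l1, l2, l3]
  ring

/-- Weight of an edge by its type. -/
noncomputable def wt (r : ℝ) (i : Fin 3) : ℝ := if i = 0 then 4 else if i = 1 then r + 2 else 67 / 20

/-- Indicator of a type. -/
noncomputable def ind (t i : Fin 3) : ℝ := if i = t then 1 else 0

/-- The local inequality. -/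
theorem local_ineq {r : ℝ} (h : Root r) (i j k : Fin 3) :
    Real.log r * (wt r i + wt r j + wt r k + 2 * (67 / 20) +
        (r + 2 - 67 / 20) * (ind 1 i + ind 1 j + ind 1 k)) +
      29 / 100 * (1 - (ind 1 i + ind 1 j + ind 1 k) / 2 - (ind 2 i + ind 2 j + ind 2 k)) +
      (if ind 0 i + ind 0 j + ind 0 k = 1 then 0 else 1 / 1000) ≤
      H (wt r i) (wt r j) (wt r k) := by
  have hw0 : wt r 0 = 4 := by simp [wt]
  have hw1 : wt r 1 = r + 2 := by simp [wt]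
  have hw2 : wt r 2 = 67 / 20 := by simp [wt]
  have i00 : ind 0 0 = 1 := by simp [ind]
  have i01 : ind 0 1 = 0 := by simp [ind]
  have i02 : ind 0 2 = 0 := by simp [ind]
  have i10 : ind 1 0 = 0 := by simp [ind]
  have i11 : ind 1 1 = 1 := by simp [ind]
  have i12 : ind 1 2 = 0 := by simp [ind]
  have i20 : ind 2 0 = 0 := by simp [ind]
  have i21 : ind 2 1 = 0 := by simp [ind]
  have i22 : ind 2 2 = 1 := by simp [ind]
  have hi : i = 0 ∨ i = 1 ∨ i = 2 := by fin_cases i <;> simp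
  have hj : j = 0 ∨ j = 1 ∨ j = 2 := by fin_cases j <;> simp
  have hk : k = 0 ∨ k = 1 ∨ k = 2 := by fin_cases k <;> simp
  rcases hi with rfl | rfl | rfl <;> rcases hj with rfl | rfl | rfl <;>
    rcases hk with rfl | rfl | rfl <;>
    simp only [hw0, hw1, hw2, i00, i01, i02, i10, i11, i12, i20, i21, i22]
  · -- (0, 0, 0)
    have := type_300 h
    rw [if_neg (by norm_num)]
    refine le_trans (le_of_eq ?_) this
    ring
  · -- (0, 0, 1)
    have := type_210 h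
    rw [if_neg (by norm_num)]
    refine le_trans (le_of_eq ?_) this
    ring
  · -- (0, 0, 2)
    have := type_201 h
    rw [if_neg (by norm_num)]
    refine le_trans (le_of_eq ?_) this
    ring
  · -- (0, 1, 0)
    rw [H_swap' 4 4 (r + 2)]
    have := type_210 h
    rw [if_neg (by norm_num)]
    refine le_trans (le_of_eq ?_) this
    ring
  · -- (0, 1, 1)
    have := type_120 h
    rw [this, if_pos (by norm_num)]
    apply le_of_eq
    ring
  · -- (0, 1, 2)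
    have := type_111 h
    rw [if_pos (by norm_num)]
    refine le_trans (le_of_eq ?_) this
    ring
  · -- (0, 2, 0)
    rw [H_swap' 4 4 (67 / 20)]
    have := type_201 h
    rw [if_neg (by norm_num)]
    refine le_trans (le_of_eq ?_) this
    ring
  · -- (0, 2, 1)
    rw [H_swap' 4 (r + 2) (67 / 20)]
    have := type_111 h
    rw [if_pos (by norm_num)]
    refine le_trans (le_of_eq ?_) this
    ring
  · -- (0, 2, 2)
    have := type_102 h
    rw [if_pos (by norm_num)]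
    refine le_trans (le_of_eq ?_) this
    ring
  · -- (1, 0, 0)
    rw [H_swap 4 (r + 2) 4, H_swap' 4 4 (r + 2)]
    have := type_210 h
    rw [if_neg (by norm_num)]
    refine le_trans (le_of_eq ?_) this
    ring
  · -- (1, 0, 1)
    rw [H_swap 4 (r + 2) (r + 2)]
    have := type_120 h
    rw [this, if_pos (by norm_num)]
    apply le_of_eq
    ring
  · -- (1, 0, 2)
    rw [H_swap 4 (r + 2) (67 / 20)]
    have := type_111 h
    rw [if_pos (by norm_num)]
    refine le_trans (le_of_eq ?_) this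
    ring
  · -- (1, 1, 0)
    rw [H_swap' (r + 2) 4 (r + 2), H_swap 4 (r + 2) (r + 2)]
    have := type_120 h
    rw [this, if_pos (by norm_num)]
    apply le_of_eq
    ring
  · -- (1, 1, 1)
    have := type_030 h
    rw [if_neg (by norm_num)]
    refine le_trans (le_of_eq ?_) this
    ring
  · -- (1, 1, 2)
    have := type_021 h
    rw [if_neg (by norm_num)]
    refine le_trans (le_of_eq ?_) this
    ring
  · -- (1, 2, 0)
    rw [H_swap' (r + 2) 4 (67 / 20), H_swap 4 (r + 2) (67 / 20)]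
    have := type_111 h
    rw [if_pos (by norm_num)]
    refine le_trans (le_of_eq ?_) this
    ring
  · -- (1, 2, 1)
    rw [H_swap' (r + 2) (r + 2) (67 / 20)]
    have := type_021 h
    rw [if_neg (by norm_num)]
    refine le_trans (le_of_eq ?_) this
    ring
  · -- (1, 2, 2)
    have := type_012 h
    rw [if_neg (by norm_num)]
    refine le_trans (le_of_eq ?_) this
    ring
  · -- (2, 0, 0)
    rw [H_swap 4 (67 / 20) 4, H_swap' 4 4 (67 / 20)]
    have := type_201 h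
    rw [if_neg (by norm_num)]
    refine le_trans (le_of_eq ?_) this
    ring
  · -- (2, 0, 1)
    rw [H_swap 4 (67 / 20) (r + 2), H_swap' 4 (r + 2) (67 / 20)]
    have := type_111 h
    rw [if_pos (by norm_num)]
    refine le_trans (le_of_eq ?_) this
    ring
  · -- (2, 0, 2)
    rw [H_swap 4 (67 / 20) (67 / 20)]
    have := type_102 h
    rw [if_pos (by norm_num)]
    refine le_trans (le_of_eq ?_) this
    ring
  · -- (2, 1, 0)
    rw [H_swap (r + 2) (67 / 20) 4, H_swap' (r + 2) 4 (67 / 20), H_swap 4 (r + 2) (67 / 20)]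
    have := type_111 h
    rw [if_pos (by norm_num)]
    refine le_trans (le_of_eq ?_) this
    ring
  · -- (2, 1, 1)
    rw [H_swap (r + 2) (67 / 20) (r + 2), H_swap' (r + 2) (r + 2) (67 / 20)]
    have := type_021 h
    rw [if_neg (by norm_num)]
    refine le_trans (le_of_eq ?_) this
    ring
  · -- (2, 1, 2)
    rw [H_swap (r + 2) (67 / 20) (67 / 20)]
    have := type_012 h
    rw [if_neg (by norm_num)]
    refine le_trans (le_of_eq ?_) this
    ring
  · -- (2, 2, 0)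
    rw [H_swap' (67 / 20) 4 (67 / 20), H_swap 4 (67 / 20) (67 / 20)]
    have := type_102 h
    rw [if_pos (by norm_num)]
    refine le_trans (le_of_eq ?_) this
    ring
  · -- (2, 2, 1)
    rw [H_swap' (67 / 20) (r + 2) (67 / 20), H_swap (r + 2) (67 / 20) (67 / 20)]
    have := type_012 h
    rw [if_neg (by norm_num)]
    refine le_trans (le_of_eq ?_) this
    ring
  · -- (2, 2, 2)
    have := type_003 h
    rw [if_neg (by norm_num)]
    refine le_trans (le_of_eq ?_) this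
    ring

end Pool.Agent.V11121.Grow
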