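import Pool.Agent.V11121.Grow.Numeric

/-!
Graphs with as many vertices of degree two as of degree three.
-/

namespace Pool.Agent.V11121.Grow

open Finset

/-- Neighbourhoods of a graph with all degrees 2 or 3, equally often. -/
structure Deg23 {V : Type} [Fintype V] [DecidableEq V] (nb : V → Finset V) : Prop where
  symm : ∀ u v, v ∈ nb u ↔ u ∈ nb v
  deg : ∀ v, (nb v).card = 2 ∨ (nb v).card = 3
  half : (univ.filter (fun v => (nb v).card = 2)).card =
    (univ.filter (fun v => (nb v).card = 3)).card

set_option linter.unusedSectionVars false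

variable {V : Type} [Fintype V] [DecidableEq V] {nb : V → Finset V}

/-- A vertex of degree two both of whose neighbours have degree three. -/
def short (nb : V → Finset V) (m : V) : Prop := (nb m).card = 2 ∧ ∀ y ∈ nb m, (nb y).card = 3

open Classical in
/-- The weight of an edge. -/
noncomputable def We (nb : V → Finset V) (r : ℝ) (u v : V) : ℝ :=
  if (nb u).card = 3 ∧ (nb v).card = 3 then 4 else
    if short nb u ∨ short nb v then r + 2 else 67 / 20

open Classical in
/-- The type of a neighbour of a vertex of degree three. -/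
noncomputable def typ (nb : V → Finset V) (y : V) : Fin 3 :=
  if (nb y).card = 3 then 0 else if short nb y then 1 else 2

theorem We_symm (r : ℝ) (u v : V) : We nb r u v = We nb r v u := by
  unfold We
  by_cases h1 : (nb u).card = 3 ∧ (nb v).card = 3
  · rw [if_pos h1, if_pos h1.symm]
  · rw [if_neg h1, if_neg (show ¬ ((nb v).card = 3 ∧ (nb u).card = 3) from fun h => h1 h.symm)]
    by_cases h2 : short nb u ∨ short nb v
    · rw [if_pos h2, if_pos h2.symm]
    · rw [if_neg h2, if_neg (show ¬ (short nb v ∨ short nb u) from fun h => h2 h.symm)]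

theorem We_three (r : ℝ) {v y : V} (hv : (nb v).card = 3) : We nb r v y = wt r (typ nb y) := by
  have hs : ¬ short nb v := by
    rintro ⟨h, _⟩
    omega
  unfold We typ wt
  by_cases h1 : (nb y).card = 3
  · rw [if_pos ⟨hv, h1⟩, if_pos h1]
    simp
  · rw [if_neg (fun h => h1 h.2), if_neg h1]
    by_cases h2 : short nb y
    · rw [if_pos (Or.inr h2), if_pos h2]
      simp
    · rw [if_neg (fun h => h.elim hs h2), if_neg h2]
      simp

open Classical in
theorem We_two (r : ℝ) (hd : Deg23 nb) {v y : V} (hv : (nb v).card = 2) (hy : y ∈ nb v) :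
    We nb r v y = if short nb v then r + 2 else 67 / 20 := by
  unfold We
  rw [if_neg (fun h => by omega)]
  by_cases h1 : short nb v
  · rw [if_pos (Or.inl h1), if_pos h1]
  · have h2 : ¬ short nb y := by
      rintro ⟨_, h⟩
      have := h v ((hd.symm v y).mp hy)
      omega
    rw [if_neg (fun h => h.elim h1 h2), if_neg h1]

theorem wt_cases (r : ℝ) (i : Fin 3) : wt r i = 4 ∨ wt r i = r + 2 ∨ wt r i = 67 / 20 := by
  unfold wt
  by_cases h0 : i = 0
  · simp [h0]
  · by_cases h1 : i = 1
    · simp [h1]
    · simp [h0, h1]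

theorem wt_tri {r : ℝ} (h : Root r) (i j k : Fin 3) : 0 < wt r i + wt r j - wt r k := by
  have h1 := h.lo
  have h2 := h.hi
  rcases wt_cases r i with hi | hi | hi <;> rcases wt_cases r j with hj | hj | hj <;>
    rcases wt_cases r k with hk | hk | hk <;> rw [hi, hj, hk] <;> linarith

theorem S_two {W : V → V → ℝ} {v a b : V} (hab : a ≠ b) (hnb : nb v = {a, b}) :
    S nb W v = W v a + W v b := by
  unfold S
  rw [hnb, Finset.sum_pair hab]

theorem S_three {W : V → V → ℝ} {v a b c : V} (hab : a ≠ b) (hac : a ≠ c) (hbc : b ≠ c)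
    (hnb : nb v = {a, b, c}) : S nb W v = W v a + W v b + W v c := by
  unfold S
  rw [hnb, Finset.sum_insert (by simp [hab, hac]), Finset.sum_pair hbc]
  ring

theorem sum_three {f : V → ℝ} {v a b c : V} (hab : a ≠ b) (hac : a ≠ c) (hbc : b ≠ c)
    (hnb : nb v = {a, b, c}) : ∑ y ∈ nb v, f y = f a + f b + f c := by
  rw [hnb, Finset.sum_insert (by simp [hab, hac]), Finset.sum_pair hbc]
  ring

theorem erase1 {a b c : V} (hab : a ≠ b) (hac : a ≠ c) :
    ({a, b, c} : Finset V).erase a = {b, c} := by
  ext x
  simp only [mem_erase, mem_insert, mem_singleton]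
  constructor
  · rintro ⟨h1, h2 | h2 | h2⟩
    · exact absurd h2 h1
    · exact Or.inl h2
    · exact Or.inr h2
  · rintro (h | h)
    · exact ⟨by rw [h]; exact hab.symm, Or.inr (Or.inl h)⟩
    · exact ⟨by rw [h]; exact hac.symm, Or.inr (Or.inr h)⟩

theorem erase2 {a b c : V} (hab : a ≠ b) (hbc : b ≠ c) :
    ({a, b, c} : Finset V).erase b = {a, c} := by
  rw [Finset.insert_comm, erase1 hab.symm hbc]

theorem erase3 {a b c : V} (hac : a ≠ c) (hbc : b ≠ c) :
    ({a, b, c} : Finset V).erase c = {a, b} := by
  have : ({a, b, c} : Finset V) = {c, a, b} := by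
    ext x
    simp only [mem_insert, mem_singleton]
    tauto
  rw [this, erase1 hac.symm hbc.symm]

theorem good (r : ℝ) (h : Root r) (hd : Deg23 nb) : Good nb (We nb r) where
  symm := hd.symm
  Wsymm := We_symm r
  pos := by
    classical
    intro v u hu x hx hux
    rcases hd.deg v with hv | hv
    · obtain ⟨a, b, hab, hnb⟩ := Finset.card_eq_two.mp hv
      unfold fl
      rw [S_two hab hnb, We_symm r u v]
      have ha : a ∈ nb v := by rw [hnb]; simp
      have hb : b ∈ nb v := by rw [hnb]; simp
      rw [We_two r hd hv hu, We_two r hd hv hx, We_two r hd hv ha, We_two r hd hv hb]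
      have h1 := h.lo
      split_ifs <;> linarith
    · obtain ⟨a, b, c, hab, hac, hbc, hnb⟩ := Finset.card_eq_three.mp hv
      unfold fl
      rw [S_three hab hac hbc hnb, We_symm r u v]
      simp only [We_three r hv]
      rw [hnb] at hu hx
      simp only [mem_insert, mem_singleton] at hu hx
      have t1 := wt_tri h (typ nb a) (typ nb b) (typ nb c)
      have t2 := wt_tri h (typ nb a) (typ nb c) (typ nb b)
      have t3 := wt_tri h (typ nb b) (typ nb c) (typ nb a)
      rcases hu with rfl | rfl | rfl <;> rcases hx with rfl | rfl | rfl <;>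
        first
        | exact absurd rfl hux
        | linarith
  sum := by
    classical
    intro v u hu
    rcases hd.deg v with hv | hv
    · obtain ⟨a, b, hab, hnb⟩ := Finset.card_eq_two.mp hv
      have ha : a ∈ nb v := by rw [hnb]; simp
      have hb : b ∈ nb v := by rw [hnb]; simp
      have hfl : ∀ x ∈ (nb v).erase u, fl nb (We nb r) u v x = We nb r u v := by
        intro x hx
        rw [mem_erase] at hx
        unfold fl
        rw [S_two hab hnb, We_symm r u v]
        rw [We_two r hd hv hu, We_two r hd hv hx.2, We_two r hd hv ha, We_two r hd hv hb]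
        ring
      rw [Finset.sum_congr rfl hfl, Finset.sum_const, Finset.card_erase_of_mem hu, hv]
      simp
    · obtain ⟨a, b, c, hab, hac, hbc, hnb⟩ := Finset.card_eq_three.mp hv
      have hu' := hu
      rw [hnb] at hu'
      simp only [mem_insert, mem_singleton] at hu'
      have hs := S_three (W := We nb r) hab hac hbc hnb
      rcases hu' with rfl | rfl | rfl
      · rw [hnb, erase1 hab hac, Finset.sum_pair hbc]
        unfold fl
        rw [hs, We_symm r u v]
        ring
      · rw [hnb, erase2 hab hbc, Finset.sum_pair hac]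
        unfold fl
        rw [hs, We_symm r u v]
        ring
      · rw [hnb, erase3 hac hbc, Finset.sum_pair hab]
        unfold fl
        rw [hs, We_symm r u v]
        ring
  ne := by
    intro v u hu
    rw [← Finset.card_pos, Finset.card_erase_of_mem hu]
    rcases hd.deg v with hv | hv <;> omega

/-- No entropy at vertices of degree two. -/
theorem h_two (r : ℝ) (h : Root r) (hd : Deg23 nb) {v : V} (hv : (nb v).card = 2) :
    Grow.h nb (We nb r) v = 0 := by
  classical
  unfold Grow.h
  refine Finset.sum_eq_zero ?_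
  intro u hu
  refine Finset.sum_eq_zero ?_
  intro x hx
  rw [mem_erase] at hx
  obtain ⟨a, b, hab, hnb⟩ := Finset.card_eq_two.mp hv
  have ha : a ∈ nb v := by rw [hnb]; simp
  have hb : b ∈ nb v := by rw [hnb]; simp
  have hfl : fl nb (We nb r) u v x = We nb r u v := by
    unfold fl
    rw [S_two hab hnb, We_symm r u v]
    rw [We_two r hd hv hu, We_two r hd hv hx.2, We_two r hd hv ha, We_two r hd hv hb]
    ring
  rw [hfl, div_self ((good r h hd).Wpos hu).ne', Real.log_one, mul_zero]

/-- The entropy at vertices of degree three. -/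
theorem h_three (r : ℝ) {v a b c : V} (hv : (nb v).card = 3)
    (hab : a ≠ b) (hac : a ≠ c) (hbc : b ≠ c) (hnb : nb v = {a, b, c}) :
    Grow.h nb (We nb r) v = H (wt r (typ nb a)) (wt r (typ nb b)) (wt r (typ nb c)) := by
  have hs := S_three (W := We nb r) hab hac hbc hnb
  unfold Grow.h
  rw [sum_three hab hac hbc hnb]
  rw [hnb, erase1 hab hac, erase2 hab hbc, erase3 hac hbc, Finset.sum_pair hbc,
    Finset.sum_pair hac, Finset.sum_pair hab]
  unfold fl
  rw [hs, We_symm r a v, We_symm r b v, We_symm r c v]
  simp only [We_three r hv]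
  unfold H ent
  have e1 : wt r (typ nb a) + wt r (typ nb b) -
      (wt r (typ nb a) + wt r (typ nb b) + wt r (typ nb c)) / 2 =
      (wt r (typ nb a) + wt r (typ nb b) - wt r (typ nb c)) / 2 := by ring
  have e2 : wt r (typ nb a) + wt r (typ nb c) -
      (wt r (typ nb a) + wt r (typ nb b) + wt r (typ nb c)) / 2 =
      (wt r (typ nb a) + wt r (typ nb c) - wt r (typ nb b)) / 2 := by ring
  have e3 : wt r (typ nb b) + wt r (typ nb a) -
      (wt r (typ nb a) + wt r (typ nb b) + wt r (typ nb c)) / 2 =
      (wt r (typ nb b) + wt r (typ nb a) - wt r (typ nb c)) / 2 := by ring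
  have e4 : wt r (typ nb b) + wt r (typ nb c) -
      (wt r (typ nb a) + wt r (typ nb b) + wt r (typ nb c)) / 2 =
      (wt r (typ nb b) + wt r (typ nb c) - wt r (typ nb a)) / 2 := by ring
  have e5 : wt r (typ nb c) + wt r (typ nb a) -
      (wt r (typ nb a) + wt r (typ nb b) + wt r (typ nb c)) / 2 =
      (wt r (typ nb c) + wt r (typ nb a) - wt r (typ nb b)) / 2 := by ring
  have e6 : wt r (typ nb c) + wt r (typ nb b) -
      (wt r (typ nb a) + wt r (typ nb b) + wt r (typ nb c)) / 2 =
      (wt r (typ nb c) + wt r (typ nb b) - wt r (typ nb a)) / 2 := by ring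
  rw [e1, e2, e3, e4, e5, e6]

/-- Number of neighbours of a given type. -/
noncomputable def cnt (nb : V → Finset V) (t : Fin 3) (v : V) : ℝ :=
  ∑ y ∈ nb v, ind t (typ nb y)

theorem local_bound {r : ℝ} (h : Root r) {v : V} (hv : (nb v).card = 3) :
    Real.log r * (S nb (We nb r) v + 2 * (67 / 20) + (r + 2 - 67 / 20) * cnt nb 1 v) +
      29 / 100 * (1 - cnt nb 1 v / 2 - cnt nb 2 v) +
      (if cnt nb 0 v = 1 then 0 else 1 / 1000) ≤ Grow.h nb (We nb r) v := by
  obtain ⟨a, b, c, hab, hac, hbc, hnb⟩ := Finset.card_eq_three.mp hv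
  rw [h_three r hv hab hac hbc hnb, S_three hab hac hbc hnb]
  unfold cnt
  rw [sum_three hab hac hbc hnb, sum_three hab hac hbc hnb, sum_three hab hac hbc hnb]
  simp only [We_three r hv]
  exact local_ineq h _ _ _

end Pool.Agent.V11121.Grow
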