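import Pool.Agent.V11121.Grow.Count

/-!
The extremal graphs: every vertex of degree three has exactly one neighbour of degree three.
-/

namespace Pool.Agent.V11121.Grow

open Finset

set_option linter.unusedSectionVars false

variable {V : Type} [Fintype V] [DecidableEq V] {nb : V → Finset V}

/-- In an extremal graph all neighbours of vertices of degree two have degree three. -/
theorem two_three (hd : Deg23 nb) (hall : ∀ v ∈ D3 nb, c3 nb v = 1) :
    ∀ y ∈ D2 nb, ∀ x ∈ nb y, x ∈ D3 nb := by
  classical
  have hle : ∀ y ∈ D2 nb, c3 nb y ≤ 2 := by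
    intro y hy
    unfold c3
    rw [← mem_D2.mp hy]
    exact Finset.card_filter_le _ _
  have h1 : ∑ v ∈ D3 nb, ∑ y ∈ nb v, (if y ∈ D2 nb then (1 : ℝ) else 0) =
      (D3 nb).card * 2 := by
    rw [← nsmul_eq_mul, ← Finset.sum_const]
    refine Finset.sum_congr rfl fun v hv => ?_
    have e := Finset.card_filter_add_card_filter_not (s := nb v) (· ∈ D3 nb)
    have e2 : ((nb v).filter (· ∈ D3 nb)).card = 1 := hall v hv
    rw [e2, mem_D3.mp hv] at e
    have e3 : (nb v).filter (fun y => ¬ y ∈ D3 nb) = (nb v).filter (fun y => y ∈ D2 nb) := by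
      refine Finset.filter_congr fun y _ => ?_
      rw [mem_D3, mem_D2]
      rcases hd.deg y with h | h <;> omega
    rw [e3] at e
    rw [Finset.sum_ite, Finset.sum_const_zero, add_zero, Finset.sum_const, nsmul_eq_mul, mul_one]
    have e4 : ((nb v).filter (fun y => y ∈ D2 nb)).card = 2 := by omega
    rw [e4]
    norm_num
  rw [swap3 hd] at h1
  have h2 : ∑ y, (((nb y).filter (· ∈ D3 nb)).card : ℝ) * (if y ∈ D2 nb then (1 : ℝ) else 0) =
      ∑ y ∈ D2 nb, (c3 nb y : ℝ) := by
    rw [Finset.sum_congr rfl (g := fun y => if y ∈ D2 nb then (c3 nb y : ℝ) else 0)]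
    · rw [Finset.sum_ite_mem, Finset.univ_inter]
    · intro y _
      split_ifs
      · rw [mul_one]; rfl
      · rw [mul_zero]
  rw [h2] at h1
  have h3 : ∑ y ∈ D2 nb, (c3 nb y : ℝ) = ∑ y ∈ D2 nb, (2 : ℝ) := by
    rw [h1, Finset.sum_const, nsmul_eq_mul]
    congr 1
    exact_mod_cast hd.half.symm
  have h4 := (Finset.sum_eq_sum_iff_of_le (fun y hy => by exact_mod_cast hle y hy)).mp h3
  intro y hy x hx
  have h5 : c3 nb y = 2 := by exact_mod_cast h4 y hy
  have h6 : (nb y).filter (· ∈ D3 nb) = nb y := by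
    refine Finset.eq_of_subset_of_card_le (Finset.filter_subset _ _) ?_
    unfold c3 at h5
    rw [h5, mem_D2.mp hy]
  rw [← h6] at hx
  exact (mem_filter.mp hx).2

open Classical in
/-- The eigenvector. -/
noncomputable def xx (nb : V → Finset V) (r : ℝ) (u v : V) : ℝ :=
  if v ∈ D2 nb then 1 else if u ∈ D2 nb then r else 2 / r

theorem xx_eigen {r : ℝ} (h : Root r) (hd : Deg23 nb) (hall : ∀ v ∈ D3 nb, c3 nb v = 1)
    {u v : V} (hu : u ∈ nb v) : ∑ x ∈ (nb v).erase u, xx nb r v x = r * xx nb r u v := by
  classical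
  have hr := h.pos
  have hcube := h.cube
  have hadd := Finset.add_sum_erase (nb v) (fun x => xx nb r v x) hu
  rcases hd.deg v with hv | hv
  · -- degree two
    have hv2 : v ∈ D2 nb := mem_D2.mpr hv
    have hx : ∀ x ∈ (nb v).erase u, xx nb r v x = r := by
      intro x hx
      have hx3 := two_three hd hall v hv2 x (mem_erase.mp hx).2
      unfold xx
      rw [if_neg (fun h' => by rw [mem_D2] at h'; rw [mem_D3] at hx3; omega), if_pos hv2]
    rw [Finset.sum_congr rfl hx, Finset.sum_const, Finset.card_erase_of_mem hu, hv]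
    unfold xx
    rw [if_pos hv2]
    simp
  · have hv3 : v ∈ D3 nb := mem_D3.mpr hv
    have hv2 : v ∉ D2 nb := fun h' => by rw [mem_D2] at h'; omega
    have hx : ∀ x ∈ nb v, xx nb r v x = if x ∈ D3 nb then 2 / r else 1 := by
      intro x _
      unfold xx
      by_cases h3 : x ∈ D3 nb
      · rw [if_pos h3, if_neg (fun h' => by rw [mem_D2] at h'; rw [mem_D3] at h3; omega),
          if_neg hv2]
      · have h2 : x ∈ D2 nb := by
          rw [mem_D2]
          rw [mem_D3] at h3
          exact (hd.deg x).resolve_right h3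
        rw [if_neg h3, if_pos h2]
    have hsum : ∑ x ∈ nb v, xx nb r v x = 2 / r + 2 := by
      rw [Finset.sum_congr rfl hx, Finset.sum_ite, Finset.sum_const, Finset.sum_const,
        nsmul_eq_mul, nsmul_eq_mul]
      have e := Finset.card_filter_add_card_filter_not (s := nb v) (· ∈ D3 nb)
      have e2 : ((nb v).filter (· ∈ D3 nb)).card = 1 := hall v hv3
      rw [e2, mem_D3.mp hv3] at e
      have e4 : ((nb v).filter (fun y => ¬ y ∈ D3 nb)).card = 2 := by omega
      rw [e2, e4]
      norm_num
    rw [hsum] at hadd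
    have hxu := hx u hu
    by_cases h3 : u ∈ D3 nb
    · rw [if_pos h3] at hxu
      have : xx nb r u v = 2 / r := by
        unfold xx
        rw [if_neg hv2, if_neg (fun h' => by rw [mem_D2] at h'; rw [mem_D3] at h3; omega)]
      rw [this]
      have e : r * (2 / r) = 2 := by field_simp
      rw [e]
      linarith
    · have h2 : u ∈ D2 nb := by
        rw [mem_D2]
        rw [mem_D3] at h3
        exact (hd.deg u).resolve_right h3
      rw [if_neg h3] at hxu
      have : xx nb r u v = r := by
        unfold xx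
        rw [if_neg hv2, if_pos h2]
      rw [this]
      have e : r * r = 2 / r + 1 := by
        field_simp
        nlinarith
      rw [e]
      linarith

theorem xx_low {r : ℝ} (h : Root r) (u v : V) : 1 ≤ r * xx nb r u v ∧ xx nb r u v ≤ 2 := by
  classical
  have h1 := h.lo
  have h2 := h.hi
  have hr := h.pos
  unfold xx
  split_ifs
  · constructor <;> linarith
  · constructor <;> nlinarith
  · have e : r * (2 / r) = 2 := by field_simp
    rw [e]
    refine ⟨by norm_num, ?_⟩
    rw [div_le_iff₀ hr]
    linarith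

theorem N_upper {r : ℝ} (h : Root r) (hd : Deg23 nb) (hall : ∀ v ∈ D3 nb, c3 nb v = 1) (L : ℕ) :
    ∀ u v, u ∈ nb v → (N nb L u v : ℝ) ≤ r ^ (L + 1) * xx nb r u v := by
  induction L with
  | zero =>
    intro u v _
    have := (xx_low (nb := nb) h u v).1
    simpa [N] using this
  | succ L ih =>
    intro u v hu
    simp only [N]
    push_cast
    have h1 : ∑ x ∈ (nb v).erase u, (N nb L v x : ℝ) ≤
        ∑ x ∈ (nb v).erase u, r ^ (L + 1) * xx nb r v x := by
      refine Finset.sum_le_sum fun x hx => ?_
      exact ih v x ((hd.symm v x).mp (mem_erase.mp hx).2)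
    refine h1.trans (le_of_eq ?_)
    rw [← Finset.mul_sum, xx_eigen h hd hall hu]
    ring

end Pool.Agent.V11121.Grow
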